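import Mathlib

open Polynomial

namespace Pool.Agent.Results.MP_46c6cb_nt.MaximalOrder

/-- Left regular representation `lam g h = g * h`. -/
noncomputable def lam (G : Type*) [Group G] : G →* Equiv.Perm G := MulAction.toPermHom G G

@[simp] lemma lam_apply {G : Type*} [Group G] (g h : G) : lam G g h = g * h := rfl

/-- The regular subgroup `N = lam(G)` of `Perm(G)`. -/
noncomputable abbrev N (G : Type*) [Group G] : Subgroup (Equiv.Perm G) := (lam G).range

/-- `lam(g)` as an element of `N`. -/
noncomputable def lamN {G : Type*} [Group G] (g : G) : N G := ⟨lam G g, g, rfl⟩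

section defs
variable {G L : Type*} [Group G] [Field L] [MulSemiringAction G L]

/-- The action of `g ∈ G` on `L[N]`: `∑ c_n n ↦ ∑ g(c_n) lam(g) n lam(g)⁻¹`. -/
noncomputable def twist (g : G) : MonoidAlgebra L (N G) →+* MonoidAlgebra L (N G) :=
  (MonoidAlgebra.mapDomainRingHom L (MulAut.conj (lamN g)).toMonoidHom).comp
    (MonoidAlgebra.mapRingHom (N G) (MulSemiringAction.toRingHom G L g))

lemma twist_single (g : G) (n : N G) (c : L) :
    twist g (MonoidAlgebra.single n c) =
      MonoidAlgebra.single (lamN g * n * (lamN g)⁻¹) (g • c) := by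
  simp [twist, MulAut.conj_apply]

variable (G) (K : Type*) (L) [Field K] [Algebra K L] [SMulCommClass G K L]

lemma twist_algebraMap (k : K) (g : G) : twist g (algebraMap K (MonoidAlgebra L (N G)) k) =
    algebraMap K (MonoidAlgebra L (N G)) k := by
  have h : (algebraMap K (MonoidAlgebra L (N G)) k) =
      MonoidAlgebra.single 1 (algebraMap K L k) := by
    simp [MonoidAlgebra.coe_algebraMap]
  rw [h, twist_single]
  simp

/-- `H_lam = L[N]^G`, as a `K`-subalgebra of `L[N]`. -/
noncomputable def Hlam : Subalgebra K (MonoidAlgebra L (N G)) where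
  carrier := {f | ∀ g : G, twist g f = f}
  mul_mem' := fun {a b} ha hb g => by rw [map_mul, ha g, hb g]
  add_mem' := fun {a b} ha hb g => by rw [map_add, ha g, hb g]
  algebraMap_mem' := fun k g => twist_algebraMap G L K k g

variable {G L}

/-- The action of `L[N]` on `L`: `(∑ c_n n) · x = ∑ c_n (n⁻¹(1_G))(x)`. -/
noncomputable def act (f : MonoidAlgebra L (N G)) (x : L) : L :=
  f.coeff.sum fun n c => c * (((n : Equiv.Perm G)⁻¹) 1 • x)


end defs

section generic
variable {G L : Type*} [Group G] [Field L] [MulSemiringAction G L]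

lemma lam_injective (G : Type*) [Group G] : Function.Injective (lam G) := by
  intro a b h
  have := congrArg (fun e : Equiv.Perm G => e 1) h
  simpa using this

omit [Field L] [MulSemiringAction G L] in
lemma lamN_injective : Function.Injective (lamN (G := G)) := by
  intro a b h
  exact lam_injective _ (congrArg Subtype.val h)

omit [Field L] [MulSemiringAction G L] in
lemma lamN_surjective : Function.Surjective (lamN (G := G)) := by
  rintro ⟨_, g, rfl⟩
  exact ⟨g, rfl⟩

omit [Field L] [MulSemiringAction G L] in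
lemma lamN_mul (g h : G) : lamN (g * h) = lamN g * lamN h := by
  apply Subtype.ext
  simp [lamN]

omit [Field L] [MulSemiringAction G L] in
lemma lamN_inv (g : G) : lamN g⁻¹ = (lamN g)⁻¹ := by
  apply Subtype.ext
  simp [lamN]

omit [Field L] [MulSemiringAction G L] in
lemma lamN_inv_one (g : G) : (((lamN g : N G) : Equiv.Perm G)⁻¹) 1 = g⁻¹ := by
  have h : (((lamN g : N G) : Equiv.Perm G)⁻¹) = lam _ g⁻¹ := by
    rw [map_inv]; rfl
  rw [h, lam_apply, mul_one]

lemma act_zero (x : L) : act (G := G) 0 x = 0 := by simp [act]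

lemma act_add (f h : MonoidAlgebra L (N G)) (x : L) :
    act (f + h) x = act f x + act h x := by
  classical
  unfold act
  rw [MonoidAlgebra.coeff_add, Finsupp.sum_add_index']
  · intro n; simp
  · intro n a b; ring

lemma act_single (n : N G) (c x : L) :
    act (MonoidAlgebra.single n c) x = c * (((n : Equiv.Perm G)⁻¹) 1 • x) := by
  unfold act
  rw [MonoidAlgebra.coeff_single, Finsupp.sum_single_index (zero_mul _)]

lemma act_single_lam (h : G) (c x : L) :
    act (MonoidAlgebra.single (lamN h) c) x = c * (h⁻¹ • x) := by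
  rw [act_single, lamN_inv_one]

lemma act_single_lam_mul (h : G) (c x : L) (z : MonoidAlgebra L (N G)) :
    act (MonoidAlgebra.single (lamN h) c * z) x = c * act z (h⁻¹ • x) := by
  induction z using MonoidAlgebra.induction_linear with
  | zero => simp [act_zero]
  | add a b ha hb => rw [mul_add, act_add, ha, hb, act_add, mul_add]
  | single m d =>
    obtain ⟨k, rfl⟩ := lamN_surjective m
    rw [MonoidAlgebra.single_mul_single, ← lamN_mul, act_single_lam, act_single_lam, mul_inv_rev,
      mul_assoc, mul_smul]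

lemma act_twist (g : G) (f : MonoidAlgebra L (N G)) (x : L) :
    act (twist g f) (g • x) = g • act f x := by
  induction f using MonoidAlgebra.induction_linear with
  | zero => simp [act_zero]
  | add a b ha hb => rw [map_add, act_add, ha, hb, act_add, smul_add]
  | single m d =>
    obtain ⟨k, rfl⟩ := lamN_surjective m
    rw [twist_single, ← lamN_inv, ← lamN_mul, ← lamN_mul, act_single_lam, act_single_lam,
      smul_mul', smul_smul, smul_smul]
    congr 2
    group

variable {K : Type*} [Field K] [Algebra K L] [SMulCommClass G K L]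

lemma act_smul_comm {f : MonoidAlgebra L (N G)} (hf : f ∈ Hlam G L K) (g : G) (x : L) :
    act f (g • x) = g • act f x := by
  rw [← act_twist, hf g]

lemma act_mul (f : MonoidAlgebra L (N G)) {z : MonoidAlgebra L (N G)} (hz : z ∈ Hlam G L K)
    (x : L) : act (f * z) x = act f (act z x) := by
  induction f using MonoidAlgebra.induction_linear with
  | zero => simp [act_zero]
  | add a b ha hb => rw [add_mul, act_add, ha, hb, act_add]
  | single m d =>
    obtain ⟨k, rfl⟩ := lamN_surjective m
    rw [act_single_lam_mul, act_single_lam, act_smul_comm hz]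

lemma act_one (x : L) : act (1 : MonoidAlgebra L (N G)) x = x := by
  have : (1 : MonoidAlgebra L (N G)) = MonoidAlgebra.single (lamN 1) 1 := by
    rw [MonoidAlgebra.one_def]
    have h1 : lamN (G := G) 1 = 1 := by apply Subtype.ext; simp [lamN]
    rw [h1]
  rw [this, act_single_lam]; simp

omit [SMulCommClass G K L] in
lemma act_algebraMap (k : K) (x : L) :
    act (algebraMap K (MonoidAlgebra L (N G)) k) x = k • x := by
  have : (algebraMap K (MonoidAlgebra L (N G)) k) =
        MonoidAlgebra.single (lamN 1) (algebraMap K L k) := by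
    have h1 : lamN (G := G) 1 = 1 := by apply Subtype.ext; simp [lamN]
    rw [h1]
    simp [MonoidAlgebra.coe_algebraMap]
  rw [this, act_single_lam, Algebra.smul_def]; simp

variable {A : Type*} [CommRing A] [Algebra A K] [Algebra A L] [IsScalarTower A K L]

lemma act_smul_A (r : A) (f : Hlam G L K) (x : L) : act (r • f).1 x = r • act f.1 x := by
  have h1 : (r • f).1 = algebraMap K (MonoidAlgebra L (N G)) (algebraMap A K r) * f.1 := by
    rw [← Algebra.smul_def, algebraMap_smul]
    rfl
  rw [h1, act_mul _ f.2, act_algebraMap, algebraMap_smul]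

variable (G L K A)

omit [Algebra A K] [IsScalarTower A K L] in
lemma act_mul_mem (B : Subalgebra A L) (a b : Hlam G L K) (ha : ∀ x ∈ B, act a.1 x ∈ B)
    (hb : ∀ x ∈ B, act b.1 x ∈ B) (x : L) (hx : x ∈ B) : act (a * b).1 x ∈ B := by
  change act (a.1 * b.1) x ∈ B
  rw [act_mul _ b.2]; exact ha _ (hb x hx)

omit [Algebra A K] [IsScalarTower A K L] in
lemma act_add_mem (B : Subalgebra A L) (a b : Hlam G L K) (ha : ∀ x ∈ B, act a.1 x ∈ B)
    (hb : ∀ x ∈ B, act b.1 x ∈ B) (x : L) (hx : x ∈ B) : act (a + b).1 x ∈ B := by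
  change act (a.1 + b.1) x ∈ B
  rw [act_add]; exact add_mem (ha x hx) (hb x hx)

lemma act_algebraMap_mem (B : Subalgebra A L) (r : A) (x : L) (hx : x ∈ B) :
    act (algebraMap A (Hlam G L K) r).1 x ∈ B := by
  rw [Algebra.algebraMap_eq_smul_one, act_smul_A]
  have : act (1 : Hlam G L K).1 x = x := act_one x
  rw [this]; exact B.smul_mem hx r

/-- Internal form of the associated order, as an `A`-subalgebra of the type `H_lam`. -/
noncomputable def assocH (B : Subalgebra A L) : Subalgebra A (Hlam G L K) where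
  carrier := {h | ∀ x ∈ B, act h.1 x ∈ B}
  mul_mem' := fun {a b} ha hb => act_mul_mem G L K A B a b ha hb
  add_mem' := fun {a b} ha hb => act_add_mem G L K A B a b ha hb
  algebraMap_mem' := act_algebraMap_mem G L K A B

omit [Algebra A K] [IsScalarTower A K L] in
lemma mul_mem_assoc (B : Subalgebra A L) {a b : MonoidAlgebra L (N G)}
    (ha : a ∈ Hlam G L K ∧ ∀ x ∈ B, act a x ∈ B) (hb : b ∈ Hlam G L K ∧ ∀ x ∈ B, act b x ∈ B) :
    a * b ∈ Hlam G L K ∧ ∀ x ∈ B, act (a * b) x ∈ B :=
  ⟨mul_mem ha.1 hb.1, fun x hx => by rw [act_mul _ hb.1]; exact ha.2 _ (hb.2 x hx)⟩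

omit [Algebra A K] [IsScalarTower A K L] in
lemma add_mem_assoc (B : Subalgebra A L) {a b : MonoidAlgebra L (N G)}
    (ha : a ∈ Hlam G L K ∧ ∀ x ∈ B, act a x ∈ B) (hb : b ∈ Hlam G L K ∧ ∀ x ∈ B, act b x ∈ B) :
    a + b ∈ Hlam G L K ∧ ∀ x ∈ B, act (a + b) x ∈ B :=
  ⟨add_mem ha.1 hb.1, fun x hx => by rw [act_add]; exact add_mem (ha.2 x hx) (hb.2 x hx)⟩

lemma algebraMap_mem_assoc (B : Subalgebra A L) (r : A) :
    algebraMap A (MonoidAlgebra L (N G)) r ∈ Hlam G L K ∧
      ∀ x ∈ B, act (algebraMap A (MonoidAlgebra L (N G)) r) x ∈ B := by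
  have h1 : algebraMap A (MonoidAlgebra L (N G)) r =
      algebraMap K (MonoidAlgebra L (N G)) (algebraMap A K r) := by
    rw [← IsScalarTower.algebraMap_apply]
  rw [h1]
  refine ⟨algebraMap_mem _ _, fun x hx => ?_⟩
  rw [act_algebraMap, algebraMap_smul]
  exact B.smul_mem hx r

/-- The associated order `{h ∈ H_lam : h · B ⊆ B}` of an `A`-subalgebra `B` of `L`, as an
`A`-subalgebra of `L[N]` contained in `H_lam`. -/
noncomputable def assocOrder (B : Subalgebra A L) : Subalgebra A (MonoidAlgebra L (N G)) where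
  carrier := {h | h ∈ Hlam G L K ∧ ∀ x ∈ B, act h x ∈ B}
  mul_mem' := mul_mem_assoc G L K A B
  add_mem' := add_mem_assoc G L K A B
  algebraMap_mem' := algebraMap_mem_assoc G L K A B

/-- The inclusion `H_lam → L[N]` over `A`. -/
noncomputable def incl : Hlam G L K →ₐ[A] MonoidAlgebra L (N G) :=
  { toFun := Subtype.val, map_one' := rfl, map_mul' := fun _ _ => rfl, map_zero' := rfl,
    map_add' := fun _ _ => rfl, commutes' := fun _ => rfl }

lemma incl_injective : Function.Injective (incl G L K A) := Subtype.val_injective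

lemma assocOrder_eq_map (B : Subalgebra A L) :
    assocOrder G L K A B = (assocH G L K A B).map (incl G L K A) := by
  ext h
  constructor
  · intro hh
    exact ⟨⟨h, hh.1⟩, hh.2, rfl⟩
  · rintro ⟨h', hh', rfl⟩
    exact ⟨h'.2, hh'⟩

end generic

section
variable {K L : Type*} [Field K] [Field L] [Algebra K L]

lemma coeff_twist (g h : L ≃ₐ[K] L) (f : MonoidAlgebra L (N (L ≃ₐ[K] L))) :
    (twist g f).coeff (lamN (g * h * g⁻¹)) = g (f.coeff (lamN h)) := by
  induction f using MonoidAlgebra.induction_linear with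
  | zero => simp
  | add a b ha hb =>
    rw [map_add, MonoidAlgebra.coeff_add, Finsupp.add_apply, ha, hb, MonoidAlgebra.coeff_add,
      Finsupp.add_apply, map_add]
  | single m d =>
    obtain ⟨k, rfl⟩ := lamN_surjective m
    rw [twist_single, ← lamN_inv, ← lamN_mul, ← lamN_mul]
    by_cases hk : k = h
    · subst hk; simp
    · have h1 : lamN (G := L ≃ₐ[K] L) (g * k * g⁻¹) ≠ lamN (g * h * g⁻¹) := by
        intro e
        apply hk
        have := lamN_injective e
        simpa using this
      have h2 : lamN (G := L ≃ₐ[K] L) k ≠ lamN h := fun e => hk (lamN_injective e)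
      simp [MonoidAlgebra.coeff_single, h1, h2]

lemma mem_Hlam_iff (f : MonoidAlgebra L (N (L ≃ₐ[K] L))) :
    f ∈ Hlam (L ≃ₐ[K] L) L K ↔ ∀ g h : L ≃ₐ[K] L, f.coeff (lamN (g * h * g⁻¹)) = g (f.coeff (lamN h)) := by
  constructor
  · intro hf g h
    have := hf g
    rw [← coeff_twist, this]
  · intro hf g
    apply MonoidAlgebra.ext
    apply Finsupp.ext
    intro n
    obtain ⟨k, rfl⟩ := lamN_surjective n
    have := coeff_twist g (g⁻¹ * k * g) f
    have e : g * (g⁻¹ * k * g) * g⁻¹ = k := by group
    rw [e] at this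
    rw [this, ← hf g, e]

variable [FiniteDimensional K L]

lemma act_eq_sum (f : MonoidAlgebra L (N (L ≃ₐ[K] L))) (x : L) :
    act f x = ∑ g : L ≃ₐ[K] L, f.coeff (lamN g) * g⁻¹ x := by
  classical
  induction f using MonoidAlgebra.induction_linear with
  | zero => simp [act_zero]
  | add a b ha hb =>
    rw [act_add, ha, hb, ← Finset.sum_add_distrib]
    apply Finset.sum_congr rfl
    intro g _
    rw [MonoidAlgebra.coeff_add, Finsupp.add_apply]; ring
  | single m d =>
    obtain ⟨k, rfl⟩ := lamN_surjective m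
    rw [act_single_lam, Finset.sum_eq_single k]
    · simp
    · intro b _ hb
      have : lamN (G := L ≃ₐ[K] L) k ≠ lamN b := fun e => hb (lamN_injective e).symm
      simp [MonoidAlgebra.coeff_single, this]
    · simp

lemma act_map_add (f : MonoidAlgebra L (N (L ≃ₐ[K] L))) (x y : L) :
    act f (x + y) = act f x + act f y := by
  simp only [act_eq_sum, map_add, mul_add, Finset.sum_add_distrib]

lemma act_map_smul (f : MonoidAlgebra L (N (L ≃ₐ[K] L))) (k : K) (x : L) :
    act f (k • x) = k • act f x := by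
  simp only [act_eq_sum, map_smul, mul_smul_comm, Finset.smul_sum]

omit [FiniteDimensional K L] in
lemma act_comm {f : MonoidAlgebra L (N (L ≃ₐ[K] L))} (hf : f ∈ Hlam (L ≃ₐ[K] L) L K)
    (σ : L ≃ₐ[K] L) (x : L) : act f (σ x) = σ (act f x) :=
  act_smul_comm hf σ x

/-- The action as an algebra homomorphism `H_lam → End_K(L)`. -/
noncomputable def Phi : Hlam (L ≃ₐ[K] L) L K →ₐ[K] Module.End K L where
  toFun f := { toFun := act f.1, map_add' := act_map_add f.1, map_smul' := act_map_smul f.1 }
  map_one' := by ext x; exact act_one x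
  map_mul' := fun f z => by ext x; exact act_mul f.1 z.2 x
  map_zero' := by ext x; exact act_zero (G := L ≃ₐ[K] L) x
  map_add' := fun f z => by ext x; exact act_add f.1 z.1 x
  commutes' := fun k => by ext x; exact act_algebraMap k x

@[simp] lemma Phi_apply (f : Hlam (L ≃ₐ[K] L) L K) (x : L) : Phi f x = act f.1 x := rfl

lemma Phi_injective : Function.Injective (Phi (K := K) (L := L)) := by
  rw [injective_iff_map_eq_zero]
  intro f hf
  have hli := (linearIndependent_toLinearMap K L L).comp
    (fun g : L ≃ₐ[K] L => ((g⁻¹ : L ≃ₐ[K] L) : L →ₐ[K] L)) (by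
      intro a b h
      have h2 : (a⁻¹ : L ≃ₐ[K] L) = b⁻¹ := by
        apply AlgEquiv.ext
        intro x
        exact DFunLike.congr_fun h x
      exact inv_injective h2)
  rw [Fintype.linearIndependent_iff] at hli
  have h0 := hli (fun g => f.1.coeff (lamN g)) (by
    apply LinearMap.ext
    intro x
    have h1 := DFunLike.congr_fun hf x
    rw [Phi_apply, act_eq_sum] at h1
    simpa [LinearMap.sum_apply] using h1)
  apply Subtype.ext
  apply MonoidAlgebra.ext
  apply Finsupp.ext
  intro n
  obtain ⟨k, rfl⟩ := lamN_surjective n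
  exact h0 k

/-- The element of `L[N]` acting as `x ↦ ∑_σ Tr(σ(c) x) σ(m)`. -/
noncomputable def bb (c m : L) : MonoidAlgebra L (N (L ≃ₐ[K] L)) :=
  ∑ h : L ≃ₐ[K] L, MonoidAlgebra.single (lamN h) (∑ σ : L ≃ₐ[K] L, (h⁻¹ * σ) c * σ m)

lemma coeff_bb (c m : L) (h : L ≃ₐ[K] L) :
    (bb (K := K) c m).coeff (lamN h) = ∑ σ : L ≃ₐ[K] L, (h⁻¹ * σ) c * σ m := by
  classical
  unfold bb
  rw [MonoidAlgebra.coeff_sum, Finsupp.finsetSum_apply, Finset.sum_eq_single h]
  · simp [MonoidAlgebra.coeff_single]
  · intro b _ hb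
    have : lamN (G := L ≃ₐ[K] L) b ≠ lamN h := fun e => hb (lamN_injective e)
    simp [MonoidAlgebra.coeff_single, this]
  · simp

lemma bb_mem (c m : L) : bb (K := K) c m ∈ Hlam (L ≃ₐ[K] L) L K := by
  rw [mem_Hlam_iff]
  intro g h
  rw [coeff_bb, coeff_bb, map_sum]
  symm
  apply Fintype.sum_equiv (Equiv.mulLeft g)
  intro σ
  rw [map_mul, Equiv.coe_mulLeft]
  have e : (g * h * g⁻¹)⁻¹ * (g * σ) = g * (h⁻¹ * σ) := by group
  rw [e]
  rfl

variable [IsGalois K L]

lemma act_bb (c m x : L) : act (bb (K := K) c m) x =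
    ∑ σ : L ≃ₐ[K] L, Algebra.trace K L (σ c * x) • σ m := by
  rw [act_eq_sum]
  simp only [coeff_bb, Finset.sum_mul]
  rw [Finset.sum_comm]
  apply Finset.sum_congr rfl
  intro σ _
  rw [Algebra.smul_def, trace_eq_sum_automorphisms, Finset.sum_mul]
  apply Fintype.sum_equiv (Equiv.inv _)
  intro h
  simp only [Equiv.inv_apply, map_mul]
  change h⁻¹ (σ c) * σ m * h⁻¹ x = _
  ring

lemma trace_Phi_bb (f : Hlam (L ≃ₐ[K] L) L K) (c m : L) :
    LinearMap.trace K L (Phi (f * ⟨bb c m, bb_mem c m⟩)) =
      (Nat.card (L ≃ₐ[K] L) : K) * Algebra.trace K L (c * act f.1 m) := by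
  have h1 : Phi (f * ⟨bb c m, bb_mem c m⟩) =
      ∑ σ : L ≃ₐ[K] L, ((Algebra.traceForm K L (σ c)).smulRight (σ (act f.1 m))) := by
    apply LinearMap.ext
    intro x
    rw [map_mul, Module.End.mul_apply, Phi_apply, Phi_apply, act_bb, LinearMap.sum_apply]
    have h2 : act f.1 (∑ σ : L ≃ₐ[K] L, Algebra.trace K L (σ c * x) • σ m) =
        Phi f (∑ σ : L ≃ₐ[K] L, Algebra.trace K L (σ c * x) • σ m) := rfl
    rw [h2, map_sum]
    apply Finset.sum_congr rfl
    intro σ _
    rw [map_smul, Phi_apply, act_comm f.2]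
    rfl
  rw [h1, map_sum]
  have h3 : ∀ σ : L ≃ₐ[K] L, LinearMap.trace K L
      ((Algebra.traceForm K L (σ c)).smulRight (σ (act f.1 m))) =
      Algebra.trace K L (c * act f.1 m) := by
    intro σ
    rw [LinearMap.trace_smulRight, Algebra.traceForm_apply, ← map_mul]
    exact Algebra.trace_eq_of_algEquiv σ _
  rw [Finset.sum_congr rfl (fun σ _ => h3 σ), Finset.sum_const, Finset.card_univ,
    nsmul_eq_mul, Nat.card_eq_fintype_card]

end

section core
variable {A K L : Type*} [CommRing A] [IsDedekindDomain A] [Field K] [Field L]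
  [Algebra A K] [IsFractionRing A K] [Algebra K L] [Algebra A L] [IsScalarTower A K L]
  [FiniteDimensional K L] [IsGalois K L]


/-- trace of an integral endomorphism is integral -/
lemma isIntegral_trace_end {A K V : Type*} [CommRing A] [Field K] [Algebra A K]
    [AddCommGroup V] [Module K V] [FiniteDimensional K V] [Module A V] [IsScalarTower A K V]
    [SMulCommClass K A V]
    (T : Module.End K V) (hT : IsIntegral A T) : IsIntegral A (LinearMap.trace K V T) := by
  classical
  obtain ⟨P, hP, hPT⟩ := hT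
  set b := Module.Free.chooseBasis K V
  set M := LinearMap.toMatrix b b T with hM
  have htr : LinearMap.trace K V T = M.trace := LinearMap.trace_eq_matrix_trace K b T
  rw [htr]
  let Kb := AlgebraicClosure K
  have hinj : Function.Injective (algebraMap K Kb) := (algebraMap K Kb).injective
  rw [← isIntegral_algebraMap_iff hinj]
  have e1 : algebraMap K Kb M.trace = (M.map (algebraMap K Kb)).trace :=
    AddMonoidHom.map_trace (algebraMap K Kb : K →+ Kb) M
  rw [e1, Matrix.trace_eq_sum_roots_charpoly_of_splits (IsAlgClosed.splits _)]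
  -- T satisfies P mapped to K
  have hTK : aeval T (P.map (algebraMap A K)) = 0 := by
    rw [aeval_map_algebraMap]; exact hPT
  have hMK : aeval M (P.map (algebraMap A K)) = 0 := by
    have h2 := congrArg (LinearMap.toMatrixAlgEquiv b) hTK
    rw [map_zero, ← AlgEquiv.coe_toAlgHom, ← aeval_algHom_apply] at h2
    exact h2
  have hMKb : aeval (M.map (algebraMap K Kb)) ((P.map (algebraMap A K)).map (algebraMap K Kb)) = 0 := by
    have h2 := congrArg ((Algebra.ofId K Kb).mapMatrix) hMK
    rw [map_zero, ← aeval_algHom_apply] at h2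
    rw [aeval_map_algebraMap]
    exact h2
  apply IsIntegral.multiset_sum
  intro r hr
  have hroot : IsRoot (M.map (algebraMap K Kb)).charpoly r := (mem_roots'.1 hr).2
  have hs := Matrix.mem_spectrum_of_isRoot_charpoly hroot
  have h3 := spectrum.subset_polynomial_aeval (M.map (algebraMap K Kb))
    ((P.map (algebraMap A K)).map (algebraMap K Kb)) ⟨r, hs, rfl⟩
  rw [hMKb] at h3
  have h4 : eval r ((P.map (algebraMap A K)).map (algebraMap K Kb)) = 0 := by
    by_contra hne
    apply h3
    change IsUnit (algebraMap Kb (Matrix _ _ Kb) (eval r ((P.map (algebraMap A K)).map (algebraMap K Kb))) - 0)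
    rw [sub_zero]
    exact (IsUnit.mk0 _ hne).map _
  refine ⟨P, hP, ?_⟩
  rw [Polynomial.map_map, ← IsScalarTower.algebraMap_eq, eval_map] at h4
  exact h4

/-- Reflexivity of the integral closure under the trace form. -/
lemma mem_of_trace_dual {A K L : Type*} [CommRing A] [IsDedekindDomain A] [Field K] [Field L]
    [Algebra A K] [IsFractionRing A K] [Algebra K L] [Algebra A L] [IsScalarTower A K L]
    [FiniteDimensional K L] [Algebra.IsSeparable K L] (z : L)
    (hz : ∀ c : L, (∀ y : L, IsIntegral A y → ∃ a : A, algebraMap A K a = Algebra.trace K L (c * y)) →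
      ∃ a : A, algebraMap A K a = Algebra.trace K L (c * z)) : IsIntegral A z := by
  classical
  let B := integralClosure A L
  have : IsFractionRing B L := integralClosure.isFractionRing_of_finite_extension K L
  have : IsDedekindDomain B := integralClosure.isDedekindDomain A K L
  have h1 : (1 : FractionalIdeal (nonZeroDivisors B) L) ≠ 0 := one_ne_zero
  have key : z ∈ FractionalIdeal.dual A K (FractionalIdeal.dual A K (1 : FractionalIdeal (nonZeroDivisors B) L)) := by
    rw [FractionalIdeal.mem_dual (FractionalIdeal.dual_ne_zero A K h1)]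
    intro c hc
    rw [FractionalIdeal.mem_dual h1] at hc
    obtain ⟨a, ha⟩ := hz c (fun y hy => by
      have hy' : y ∈ (1 : FractionalIdeal (nonZeroDivisors B) L) := by
        rw [FractionalIdeal.mem_one_iff]
        exact ⟨⟨y, hy⟩, rfl⟩
      obtain ⟨a, ha⟩ := hc y hy'
      exact ⟨a, by rw [ha]; rfl⟩)
    refine ⟨a, ?_⟩
    rw [ha, Algebra.traceForm_apply, mul_comm]
  rw [FractionalIdeal.dual_dual, FractionalIdeal.mem_one_iff] at key
  obtain ⟨b, hb⟩ := key
  rw [← hb]
  exact b.2


theorem core (hG : IsUnit (Nat.card (L ≃ₐ[K] L) : A)) (Γ : Subalgebra A (Hlam (L ≃ₐ[K] L) L K))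
    (hfg : (Subalgebra.toSubmodule Γ).FG)
    (hle : ∀ h : Hlam (L ≃ₐ[K] L) L K, (∀ x : L, IsIntegral A x → IsIntegral A (act h.1 x)) → h ∈ Γ)
    (h : Hlam (L ≃ₐ[K] L) L K) (hh : h ∈ Γ) (m : L) (hm : IsIntegral A m) : IsIntegral A (act h.1 m) := by
  apply mem_of_trace_dual (K := K)
  intro c hc
  have hb : (⟨bb c m, bb_mem c m⟩ : Hlam (L ≃ₐ[K] L) L K) ∈ Γ := by
    apply hle
    intro x hx
    change IsIntegral A (act (bb c m) x)
    rw [act_bb]
    apply IsIntegral.sum
    intro σ _
    have h1 : Algebra.trace K L (σ c * x) = Algebra.trace K L (c * σ.symm x) := by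
      rw [← Algebra.trace_eq_of_algEquiv σ (c * σ.symm x)]
      congr 1
      rw [map_mul σ, AlgEquiv.apply_symm_apply]
    obtain ⟨a, ha⟩ := hc (σ.symm x) (hx.map (σ.symm.toAlgHom.restrictScalars A))
    rw [h1, ← ha, algebraMap_smul]
    exact (hm.map (σ.toAlgHom.restrictScalars A)).smul a
  have hint : IsIntegral A (h * ⟨bb c m, bb_mem c m⟩) :=
    IsIntegral.of_mem_of_fg Γ hfg _ (Γ.mul_mem hh hb)
  have hint2 : IsIntegral A (Phi (h * ⟨bb c m, bb_mem c m⟩)) :=
    hint.map ((Phi (K := K) (L := L)).restrictScalars A)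
  have hint3 := isIntegral_trace_end _ hint2
  rw [trace_Phi_bb] at hint3
  obtain ⟨u, hu⟩ := hG
  have h5 : IsIntegral A (Algebra.trace K L (c * act h.1 m)) := by
    have h6 : Algebra.trace K L (c * act h.1 m) = (↑u⁻¹ : A) •
        ((Nat.card (L ≃ₐ[K] L) : K) * Algebra.trace K L (c * act h.1 m)) := by
      rw [Algebra.smul_def, ← mul_assoc]
      have h7 : (Nat.card (L ≃ₐ[K] L) : K) = algebraMap A K (u : A) := by
        rw [hu, map_natCast]
      rw [h7, ← map_mul, Units.inv_mul, map_one, one_mul]
    rw [h6]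
    exact hint3.smul _
  exact IsIntegrallyClosed.isIntegral_iff.1 h5


lemma assocH_fg : (Subalgebra.toSubmodule (assocH (L ≃ₐ[K] L) L K A (integralClosure A L))).FG := by
  classical
  let B := integralClosure A L
  have hfin : Module.Finite A B := IsIntegralClosure.finite A K L B
  obtain ⟨s, hs⟩ := hfin.fg_top
  have hnoeth : IsNoetherian A B := isNoetherian_of_isNoetherianRing_of_finite A B
  let F : assocH (L ≃ₐ[K] L) L K A (integralClosure A L) →ₗ[A] (s → B) :=
    { toFun := fun h x => ⟨act h.1.1 (x : B), h.2 _ (x : B).2⟩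
      map_add' := fun a b => by
        ext x; exact act_add a.1.1 b.1.1 _
      map_smul' := fun r a => by
        ext x; exact act_smul_A r a.1 _ }
  have hF : Function.Injective F := by
    rw [injective_iff_map_eq_zero]
    intro h hh
    have h0 : ∀ x : B, act h.1.1 (x : L) = 0 := by
      intro x
      have hx : x ∈ Submodule.span A (s : Set B) := by rw [hs]; trivial
      induction hx using Submodule.span_induction with
      | mem y hy =>
        have := congrFun hh ⟨y, hy⟩
        exact congrArg Subtype.val this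
      | zero => exact (Phi h.1).map_zero
      | add y z _ _ hy hz =>
        have : act h.1.1 ((y + z : B) : L) = act h.1.1 (y : L) + act h.1.1 (z : L) :=
          act_map_add _ _ _
        rw [this, hy, hz, add_zero]
      | smul r y _ hy =>
        have e1 : ((r • y : B) : L) = (algebraMap A K r) • (y : L) := by
          rw [algebraMap_smul]; rfl
        rw [e1, act_map_smul, hy, smul_zero]
    have h1 : Phi h.1 = 0 := by
      apply LinearMap.ext
      intro z
      obtain ⟨y, hy0, hy⟩ := exists_integral_multiples A K (L := L) {z}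
      have hy1 := hy z (Finset.mem_singleton_self z)
      have h2 := h0 ⟨y • z, hy1⟩
      have e1 : (y • z : L) = (algebraMap A K y) • z := by rw [algebraMap_smul]
      change act h.1.1 (y • z) = 0 at h2
      rw [e1, act_map_smul] at h2
      have hy2 : algebraMap A K y ≠ 0 := by
        intro e; exact hy0 ((IsFractionRing.injective A K) (by rw [e, map_zero]))
      exact (smul_eq_zero.1 h2).resolve_left hy2
    have h2 : h.1 = 0 := Phi_injective (by rw [h1, map_zero])
    exact Subtype.ext h2
  have : Module.Finite A (assocH (L ≃ₐ[K] L) L K A (integralClosure A L)) := Module.Finite.of_injective F hF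
  exact Module.Finite.iff_fg.1 this

lemma assocH_span : Submodule.span K ((assocH (L ≃ₐ[K] L) L K A (integralClosure A L) : Subalgebra A (Hlam (L ≃ₐ[K] L) L K)) : Set (Hlam (L ≃ₐ[K] L) L K)) =
    ⊤ := by
  classical
  rw [eq_top_iff]
  intro h _
  let B := integralClosure A L
  have hfin : Module.Finite A B := IsIntegralClosure.finite A K L B
  obtain ⟨s, hs⟩ := hfin.fg_top
  obtain ⟨y, hy0, hy⟩ := exists_integral_multiples A K (L := L)
    (s.image (fun b : B => act h.1 (b : L)))
  have hmem : y • h ∈ assocH (L ≃ₐ[K] L) L K A (integralClosure A L) := by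
    intro x hx
    rw [act_smul_A]
    have hx' : (⟨x, hx⟩ : B) ∈ Submodule.span A (s : Set B) := by rw [hs]; trivial
    have key : ∀ z : B, z ∈ Submodule.span A (s : Set B) →
        IsIntegral A (y • act h.1 (z : L)) := by
      intro z hz
      induction hz using Submodule.span_induction with
      | mem w hw => exact hy _ (Finset.mem_image.2 ⟨w, hw, rfl⟩)
      | zero =>
        have : act h.1 ((0 : B) : L) = 0 := (Phi h).map_zero
        rw [this, smul_zero]; exact isIntegral_zero
      | add u v _ _ hu hv =>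
        have : act h.1 ((u + v : B) : L) = act h.1 (u : L) + act h.1 (v : L) :=
          act_map_add _ _ _
        rw [this, smul_add]; exact hu.add hv
      | smul r u _ hu =>
        have e1 : ((r • u : B) : L) = (algebraMap A K r) • (u : L) := by
          rw [algebraMap_smul]; rfl
        rw [e1, act_map_smul, algebraMap_smul, smul_comm]
        exact hu.smul r
    exact key _ hx'
  have hy2 : algebraMap A K y ≠ 0 := by
    intro e; exact hy0 ((IsFractionRing.injective A K) (by rw [e, map_zero]))
  have e2 : h = (algebraMap A K y)⁻¹ • (y • h) := by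
    rw [← algebraMap_smul K y h, smul_smul, inv_mul_cancel₀ hy2, one_smul]
  rw [e2]
  exact Submodule.smul_mem _ _ (Submodule.subset_span hmem)

end core

/-- `M` is an `A`-order of the `K`-algebra `H`, where `H` is a `K`-subalgebra of the ring `R`: `M` is
a subring of `R` containing the image of `A`, it is finitely generated as an `A`-module, and its
`K`-span is `H` (so `M ⊆ H`). -/
def IsOrder {A K R : Type*} [CommRing A] [Field K] [Ring R] [Algebra A R] [Algebra K R]
    (H : Subalgebra K R) (M : Subalgebra A R) : Prop :=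
  (Subalgebra.toSubmodule M).FG ∧ Submodule.span K (M : Set R) = Subalgebra.toSubmodule H

/-- A maximal `A`-order of `H`: an `A`-order of `H` that no `A`-order of `H` properly contains. -/
def IsMaximalOrder {A K R : Type*} [CommRing A] [Field K] [Ring R] [Algebra A R] [Algebra K R]
    (H : Subalgebra K R) (M : Subalgebra A R) : Prop :=
  IsOrder H M ∧ ∀ M' : Subalgebra A R, IsOrder H M' → M ≤ M' → M' = M

/-- The ring of integers of an extension `F` of `ℚ_p`: the integral closure of `ℤ_p` in `F`. -/
noncomputable abbrev O (p : ℕ) [Fact p.Prime] (F : Type*) [Field F] [Algebra ℤ_[p] F] :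
    Subalgebra ℤ_[p] F := integralClosure ℤ_[p] F

/-- **Theorem.** If `L/K` is a Galois extension of `p`-adic fields and `p` does not divide
`[L:K]`, then the associated order of `O_L` in the canonical nonclassical Hopf-Galois structure
`H_lam` is a maximal `O_K`-order. -/
theorem result (p : ℕ) [Fact p.Prime] (K L : Type*) [Field K] [Field L]
    [Algebra ℚ_[p] K] [FiniteDimensional ℚ_[p] K] [Algebra ℤ_[p] K] [IsScalarTower ℤ_[p] ℚ_[p] K]
    [Algebra K L] [FiniteDimensional K L] [IsGalois K L] (hp : ¬ p ∣ Module.finrank K L) :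
    IsMaximalOrder (Hlam (L ≃ₐ[K] L) L K)
      (assocOrder (L ≃ₐ[K] L) L K (O p K) (integralClosure (O p K) L)) := by
  have hded : IsDedekindDomain (O p K) := integralClosure.isDedekindDomain ℤ_[p] ℚ_[p] K
  have hfrac : IsFractionRing (O p K) K :=
    integralClosure.isFractionRing_of_finite_extension ℚ_[p] K
  have hunit : IsUnit (Nat.card (L ≃ₐ[K] L) : O p K) := by
    have h1 : IsUnit ((Nat.card (L ≃ₐ[K] L) : ℕ) : ℤ_[p]) := by
      rw [PadicInt.isUnit_iff, PadicInt.norm_natCast_eq_one_iff, IsGalois.card_aut_eq_finrank]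
      exact (Nat.Prime.coprime_iff_not_dvd Fact.out).2 hp
    have h2 := h1.map (algebraMap ℤ_[p] (O p K))
    rwa [map_natCast] at h2
  have hspan : Submodule.span K
      ((assocOrder (L ≃ₐ[K] L) L K (O p K) (integralClosure (O p K) L) :
        Subalgebra (O p K) (MonoidAlgebra L (N (L ≃ₐ[K] L)))) :
        Set (MonoidAlgebra L (N (L ≃ₐ[K] L)))) =
      Subalgebra.toSubmodule (Hlam (L ≃ₐ[K] L) L K) := by
    apply le_antisymm
    · rw [Submodule.span_le]
      intro h hh
      exact hh.1
    · intro h hh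
      have h1 : (⟨h, hh⟩ : Hlam (L ≃ₐ[K] L) L K) ∈ Submodule.span K
          ((assocH (L ≃ₐ[K] L) L K (O p K) (integralClosure (O p K) L) :
            Subalgebra (O p K) (Hlam (L ≃ₐ[K] L) L K)) : Set (Hlam (L ≃ₐ[K] L) L K)) := by
        rw [assocH_span]; trivial
      have h2 := Submodule.mem_map_of_mem (f := (Hlam (L ≃ₐ[K] L) L K).val.toLinearMap) h1
      rw [Submodule.map_span] at h2
      refine Submodule.span_mono ?_ h2
      rintro _ ⟨h', hh', rfl⟩
      exact ⟨h'.2, hh'⟩
  have hfgA : (Subalgebra.toSubmodule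
      (assocOrder (L ≃ₐ[K] L) L K (O p K) (integralClosure (O p K) L))).FG := by
    rw [assocOrder_eq_map, Subalgebra.map_toSubmodule]
    exact assocH_fg.map _
  refine ⟨⟨hfgA, hspan⟩, ?_⟩
  intro M' hM' hle
  apply le_antisymm _ hle
  intro h hh
  have hsub : ∀ z ∈ M', z ∈ Hlam (L ≃ₐ[K] L) L K := by
    intro z hz
    have h1 : z ∈ Submodule.span K (M' : Set (MonoidAlgebra L (N (L ≃ₐ[K] L)))) :=
      Submodule.subset_span hz
    rw [hM'.2] at h1
    exact h1
  have hfgM : (Subalgebra.toSubmodule (M'.comap (incl (L ≃ₐ[K] L) L K (O p K)))).FG := by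
    apply Submodule.fg_of_fg_map_injective (incl (L ≃ₐ[K] L) L K (O p K)).toLinearMap
      (incl_injective (L ≃ₐ[K] L) L K (O p K))
    have h2 : (Subalgebra.toSubmodule (M'.comap (incl (L ≃ₐ[K] L) L K (O p K)))).map
        (incl (L ≃ₐ[K] L) L K (O p K)).toLinearMap = Subalgebra.toSubmodule M' := by
      ext z
      constructor
      · rintro ⟨y, hy, rfl⟩
        exact hy
      · intro hz
        exact ⟨⟨z, hsub z hz⟩, hz, rfl⟩
    rw [h2]
    exact hM'.1
  refine ⟨hsub h hh, fun x hx => ?_⟩
  exact core hunit (M'.comap (incl (L ≃ₐ[K] L) L K (O p K))) hfgM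
    (fun y hy => hle ⟨y.2, hy⟩) ⟨h, hsub h hh⟩ hh x hx

end Pool.Agent.Results.MP_46c6cb_nt.MaximalOrder
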